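import Mathlib
import Pool.Agent.J4H99.PT.Defs
import Pool.Agent.J4H99.PT.Main

set_option autoImplicit false

/-!
# MP_e3daee_pr, Q1: a continuous martingale which is a non-regular semimartingale for a larger
filtration

With a Brownian motion `B`, `S` its running maximum and `R = 2S - B` (the three dimensional Bessel
process of Pitman's theorem): `F` is the filtration of `R`, `G ⊇ F` the filtration of `B`, both
completed, `M = R - ∫ ds / R` is an `F`-martingale, and `M = -B + (2S - ∫ ds / R)` in `G`, where
`2S - ∫ ds / R` is not absolutely continuous with respect to `[B, B]_t = t`.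

`AbsCont A V` (file `Pool.Agent.J4H99.PT.Defs`) says that the function `A` is absolutely continuous
with respect to the function `V` on every interval `[0, T]`.
-/

namespace Pool.Agent.Results.MP_e3daee_pr.NotRegular

open MeasureTheory ProbabilityTheory
open scoped NNReal
open Pool.Agent.J4H99.PT (AbsCont)

/-- There are a complete probability space, filtrations `F`, `G` containing the null sets, and a
continuous `F`-martingale `M` with `M = N + A`, where `N` is a continuous `G`-martingale with
quadratic variation `V` (the continuous increasing adapted process with `V 0 = 0` for which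
`N ^ 2 - V` is a martingale) and `A` is a continuous `G`-adapted process of finite variation with
`A 0 = 0`, such that almost surely `A` is not absolutely continuous with respect to `V`. -/
theorem result :
    ∃ (Ω : Type) (mΩ : MeasurableSpace Ω) (P : Measure Ω) (F G : Filtration ℝ≥0 mΩ)
      (M N A V : ℝ≥0 → Ω → ℝ),
      IsProbabilityMeasure P ∧ P.IsComplete ∧
      (∀ E, P E = 0 → MeasurableSet[F 0] E) ∧ (∀ E, P E = 0 → MeasurableSet[G 0] E) ∧
      (∀ t, F t ≤ G t) ∧
      (∀ ω, Continuous fun t => M t ω) ∧ Martingale M F P ∧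
      (∀ t ω, M t ω = N t ω + A t ω) ∧
      (∀ ω, Continuous fun t => N t ω) ∧ Martingale N G P ∧
      StronglyAdapted G A ∧ (∀ ω, A 0 ω = 0) ∧ (∀ ω, Continuous fun t => A t ω) ∧
      (∀ ω, ∃ C D : ℝ≥0 → ℝ, Monotone C ∧ Monotone D ∧ ∀ t, A t ω = C t - D t) ∧
      StronglyAdapted G V ∧ (∀ ω, V 0 ω = 0) ∧ (∀ ω, Continuous fun t => V t ω) ∧
      (∀ ω, Monotone fun t => V t ω) ∧ Martingale (fun t ω => N t ω ^ 2 - V t ω) G P ∧
      ∀ᵐ ω ∂P, ¬ AbsCont (fun t => A t ω) (fun t => V t ω) :=
  Pool.Agent.J4H99.PT.main

end Pool.Agent.Results.MP_e3daee_pr.NotRegular
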